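import Mathlib
import Pool.Agent.W873.Ta.Aron
import Pool.Agent.W873.Ta.Tpf

set_option autoImplicit false

/-!
# The tree property at `ω₂` can be destroyed by one Cohen real

The forcing relation is the one of `Pool.Agent.Helper669.Forcing`: a sentence is the set of the
conditions which force it. The forcing extension of the extension by `P` by the forcing
`Add(ω, 1)` is the extension by the product `P × Add(ω, 1)`.

The conditions of the forcing `P` of the proof are pairs of a finite condition in `κ` Cohen reals
and a countable system of names, for the extension by the Cohen reals `y` and one more Cohen real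
`c`, of functions `e x b y c` (for `x < b`), such that for every `y` in the region of the condition
the system is coherent modulo finite sets for all but countably many `c`.
-/

namespace Pool.Agent.Results.MP_6993b6_lc.CohenAddsAronszajnTree

open Cardinal Pool.Agent.Helper669.Forcing

/-- `V` is a `κ`-complete non-principal ultrafilter on `κ`. -/
structure Measure (κ : Cardinal.{0}) (V : Ultrafilter κ.ord.ToType) : Prop where
  complete : ∀ (ι : Type) (A : ι → κ.ord.ToType → Prop), #ι < κ →
    (∀ i, ∀ᶠ m in (V : Filter κ.ord.ToType), A i m) →
      ∀ᶠ m in (V : Filter κ.ord.ToType), ∀ i, A i m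
  nonprincipal : ∀ a, ∀ᶠ m in (V : Filter κ.ord.ToType), m ≠ a

/-- `κ` is measurable: it is uncountable and there is a `κ`-complete non-principal ultrafilter
on `κ`. -/
def IsMeasurable (κ : Cardinal.{0}) : Prop :=
  ℵ₀ < κ ∧ ∃ V : Ultrafilter κ.ord.ToType, Measure κ V

/-- `ω₁` -/
abbrev W : Type := (ℵ₁ : Cardinal.{0}).ord.ToType

/-- `Add(ω, 1)`: the finite partial functions from `ℕ` to `Bool`, ordered by reverse inclusion -/
def Add1 : Type := {s : Finset (ℕ × Bool) // ∀ a ∈ s, ∀ b ∈ s, a.1 = b.1 → a.2 = b.2}

instance : Preorder Add1 where
  le s t := t.1 ⊆ s.1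
  le_refl _ := Finset.Subset.refl _
  le_trans _ _ _ h h' := Finset.Subset.trans h' h

section

variable {P : Type} [Preorder P] {L K : Type} [LinearOrder K]

/-- `φ or ψ` is `not (not φ and not ψ)`. -/
def for' (φ ψ : Set P) : Set P := fnot (fand (fnot φ) (fnot ψ))

/-- In the extension: `L` with the relation named by `R` is a tree of height `K`, and all its
levels are nonempty and have at most `|W|` elements. Here `ℓ` names the level function, with values
in `K`: if `x` is below `y` then the level of `x` is smaller, the relation is transitive, and each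
`y` has exactly one predecessor on each level below its own. -/
def IsTree (R : L → L → Set P) (ℓ : L → K → Set P) : Set P :=
  fand (IsFun ℓ)
  (fand (fall fun x : L => fall fun y : L => fall fun a : K => fall fun b : K =>
    fimp (fand (meets (R x y)) (fand (meets (ℓ x a)) (meets (ℓ y b)))) (fground (a < b)))
  (fand (fall fun x : L => fall fun y : L => fall fun z : L =>
    fimp (fand (meets (R x y)) (meets (R y z))) (meets (R x z)))
  (fand (fall fun y : L => fall fun b : K => fall fun a : K => fall fun _ : a < b =>
    fimp (meets (ℓ y b)) (fex fun x : L => fand (meets (R x y)) (meets (ℓ x a))))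
  (fand (fall fun x : L => fall fun y : L => fall fun z : L => fall fun a : K =>
    fimp (fand (fand (meets (R x z)) (meets (R y z))) (fand (meets (ℓ x a)) (meets (ℓ y a))))
      (fground (x = y)))
  (fand (fall fun a : K => fex fun x : L => meets (ℓ x a))
    (fall fun a : K => fex fun F : W → L → Set P =>
      fand (IsFun F) (fall fun x : L => fimp (meets (ℓ x a))
        (fex fun w : W => meets (F w x)))))))))

/-- In the extension: `B` is a linearly ordered subset of the tree named by `R` and `ℓ` which
meets all levels. -/
def IsCofinalBranch (R : L → L → Set P) (ℓ : L → K → Set P) (B : L → Set P) : Set P :=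
  fand (fall fun x : L => fall fun y : L =>
    fimp (fand (meets (B x)) (meets (B y)))
      (for' (fground (x = y)) (for' (meets (R x y)) (meets (R y x)))))
    (fall fun a : K => fex fun x : L => fand (meets (B x)) (meets (ℓ x a)))

end

section

variable (P : Type) [Preorder P]

/-- In the extension, `ω₁` of the ground model is not countable. -/
def OmegaOnePreserved : Set P :=
  fnot (fex fun E : ℕ → W → Set P => fand (IsFun E) (IsOnto E))

variable (K : Type) [LinearOrder K]

/-- In the extension, `K` is the cardinal `ω₂` (if `W` is `ω₁`): all proper initial segments of `K`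
are images of `W`, and `K` is not. -/
def OmegaTwoIs : Set P :=
  fand (fall fun a : K => fex fun E : W → Set.Iic a → Set P => fand (IsFun E) (IsOnto E))
    (fnot (fex fun E : W → K → Set P => fand (IsFun E) (IsOnto E)))

/-- In the extension, every tree of height `K` with levels of size at most `|W|` has a cofinal
branch: the tree property at `ω₂`, if `K` is `ω₂`. (The underlying set of the tree is any set `L`
of the ground model; in the extension each set is in bijection with such a set.) -/
def TreeProp : Set P :=
  fall fun L : Type => fall fun R : L → L → Set P => fall fun ℓ : L → K → Set P =>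
    fimp (IsTree R ℓ) (fex fun B : L → Set P => IsCofinalBranch R ℓ B)

/-- In the extension, there is a tree of height `K` with levels of size at most `|W|` without a
cofinal branch: an `ω₂`-Aronszajn tree, if `K` is `ω₂`. -/
def HasAronszajnTree : Set P :=
  fex fun L : Type => fex fun R : L → L → Set P => fex fun ℓ : L → K → Set P =>
    fand (IsTree R ℓ) (fall fun B : L → Set P => fnot (IsCofinalBranch R ℓ B))

end

open Pool.Agent.W873 Pool.Agent.W873.Ta in
/-- From a measurable cardinal `κ` there is a forcing `P` preserving `ω₁` and making `κ` equal to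
`ω₂`, such that the tree property holds at `ω₂` in the extension by `P`, and adding one Cohen real
to the extension adds an `ω₂`-Aronszajn tree. -/
theorem result (κ : Cardinal.{0}) (hκ : IsMeasurable κ) :
    ∃ (P : Type) (_ : Preorder P), Nonempty P ∧
      (∀ p : P, p ∈ OmegaOnePreserved P ∧ p ∈ OmegaTwoIs P κ.ord.ToType ∧
        p ∈ TreeProp P κ.ord.ToType) ∧
      (∀ a : P × Add1, a ∈ OmegaOnePreserved (P × Add1) ∧
        a ∈ OmegaTwoIs (P × Add1) κ.ord.ToType ∧
        a ∈ HasAronszajnTree (P × Add1) κ.ord.ToType) := by
  obtain ⟨h0, U, hU⟩ := hκ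
  obtain ⟨V, hV⟩ := exists_NM ⟨h0, U, hU.complete, hU.nonprincipal⟩
  have h1 : Cd (Vi.Ik κ) := by
    refine ⟨Vi.Co.one, ⟨∅, fun _ _ _ _ => false⟩, Set.countable_empty,
      fun a ha => absurd ha (Set.notMem_empty a), fun y _ => ?_⟩
    exact Set.countable_empty.mono fun c hc => hc fun b hb => absurd hb (Set.notMem_empty b)
  exact ⟨Cd (Vi.Ik κ), inferInstance, ⟨h1⟩,
    fun p => ⟨(gq1 hV).omegaOne p, (gq1 hV).omegaTwo hV.cfK p, treeProp hV p⟩,
    fun a => ⟨(gq2 hV).omegaOne a, (gq2 hV).omegaTwo hV.cfK a, aronszajn hV a⟩⟩

end Pool.Agent.Results.MP_6993b6_lc.CohenAddsAronszajnTree
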